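import Mathlib
import Pool.Agent.N770.RowsGen
import Pool.Agent.N770.Classical2
import Pool.Agent.R350.Inst
import Pool.Agent.Y787.CStrat

/-!
# Pairs of logarithms whose ratio is a ratio of elements of a space of finite dimension
-/

set_option autoImplicit false

namespace Pool.Agent.J4.H56.RT

open Module
open Pool.Agent.Y787 (QC hyperplane')
open Pool.Agent.H301R2.SSE (Lt Lt_log)

section gen

variable (U : Submodule (QC ℂ) ℂ) [FiniteDimensional (QC ℂ) U]

/-- a basis of `U` -/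
noncomputable def tau (i : Fin (finrank (QC ℂ) U)) : ℂ := (Module.finBasis (QC ℂ) U i : ℂ)

theorem tau_li : LinearIndependent (QC ℂ) (tau U) :=
  (Module.finBasis (QC ℂ) U).linearIndependent.map' U.subtype (Submodule.ker_subtype _)

/-- the coordinates -/
noncomputable def co (u : U) (i : Fin (finrank (QC ℂ) U)) : QC ℂ := (Module.finBasis (QC ℂ) U).repr u i

theorem co_sum (u : U) : ∑ i, (co U u i : ℂ) * tau U i = u := by
  have h := congrArg (fun z : U => (z : ℂ)) ((Module.finBasis (QC ℂ) U).sum_repr u)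
  simp only [Submodule.coe_sum] at h
  exact h

/-- the solutions in logarithms -/
noncomputable def Y : Submodule (QC ℂ) (Fin (finrank (QC ℂ) U) → ℂ) where
  carrier := {a | (∀ i, a i ∈ Lt) ∧ ∑ i, tau U i * a i = 0}
  add_mem' := by
    rintro a b ⟨h1, h2⟩ ⟨h3, h4⟩
    refine ⟨fun i => Lt.add_mem (h1 i) (h3 i), ?_⟩
    simp only [Pi.add_apply, mul_add, Finset.sum_add_distrib]
    rw [h2, h4, add_zero]
  zero_mem' := ⟨fun i => Lt.zero_mem, by simp⟩
  smul_mem' := by
    rintro c a ⟨h1, h2⟩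
    refine ⟨fun i => Lt.smul_mem _ (h1 i), ?_⟩
    have : ∑ i, tau U i * (c • a) i = (c : ℂ) * ∑ i, tau U i * a i := by
      rw [Finset.mul_sum]
      refine Finset.sum_congr rfl fun i _ => ?_
      rw [Pi.smul_apply, Algebra.smul_def]
      change tau U i * ((c : ℂ) * a i) = _
      ring
    rw [this, h2, mul_zero]

theorem rank_Y : Module.rank (QC ℂ) (Y U) ≤
    ((finrank (QC ℂ) U * (finrank (QC ℂ) U - 1) : ℕ) : Cardinal) := by
  refine rank_le fun s hs => ?_
  have h1 : LinearIndependent (QC ℂ) (fun j : s => ((j : Y U) : Fin (finrank (QC ℂ) U) → ℂ)) :=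
    hs.map' (Y U).subtype (Submodule.ker_subtype _)
  have h2 := hyperplane' (Lt := Lt) (finrank (QC ℂ) U) (tau U)
    (fun i (j : s) => ((j : Y U) : Fin (finrank (QC ℂ) U) → ℂ) i) (tau_li U)
    (fun i j => (j : Y U).2.1 i) (fun j => (j : Y U).2.2) h1
  rwa [Fintype.card_coe] at h2

instance fin_Y : FiniteDimensional (QC ℂ) (Y U) := by
  rw [FiniteDimensional, ← Module.rank_lt_aleph0_iff]
  exact (rank_Y U).trans_lt Cardinal.natCast_lt_aleph0

theorem finrank_Y : finrank (QC ℂ) (Y U) ≤ finrank (QC ℂ) U * (finrank (QC ℂ) U - 1) :=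
  Module.finrank_le_of_rank_le (rank_Y U)

/-- the sum of the coordinates -/
noncomputable def Phi : (Fin (finrank (QC ℂ) U) → Y U) →ₗ[QC ℂ] ℂ :=
  ∑ i, (LinearMap.proj i ∘ₗ (Y U).subtype) ∘ₗ LinearMap.proj i

theorem Phi_apply (y : Fin (finrank (QC ℂ) U) → Y U) :
    Phi U y = ∑ i, ((y i : Y U) : Fin (finrank (QC ℂ) U) → ℂ) i := by
  simp [Phi]

/-- the space of all coordinates of solutions -/
noncomputable def WQ : Submodule (QC ℂ) ℂ := LinearMap.range (Phi U)

instance fin_WQ : FiniteDimensional (QC ℂ) (WQ U) := by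
  unfold WQ
  infer_instance

theorem finrank_WQ : finrank (QC ℂ) (WQ U) ≤
    finrank (QC ℂ) U * (finrank (QC ℂ) U * (finrank (QC ℂ) U - 1)) := by
  refine (LinearMap.finrank_range_le _).trans ?_
  rw [Module.finrank_pi_fintype]
  simp only [Finset.sum_const, Finset.card_univ, Fintype.card_fin, smul_eq_mul]
  exact Nat.mul_le_mul_left _ (finrank_Y U)

theorem coord_mem (y : Y U) (i : Fin (finrank (QC ℂ) U)) :
    (y : Fin (finrank (QC ℂ) U) → ℂ) i ∈ WQ U := by
  refine ⟨Pi.single i y, ?_⟩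
  rw [Phi_apply, Finset.sum_eq_single i]
  · rw [Pi.single_eq_same]
  · intro j _ hj
    rw [Pi.single_eq_of_ne hj]
    rfl
  · intro h
    exact absurd (Finset.mem_univ i) h

theorem smul_Lt (a : QC ℂ) {v : ℂ} (hv : v ∈ Lt) : (a : ℂ) * v ∈ Lt := by
  have := Lt.smul_mem a hv
  rwa [Algebra.smul_def] at this

theorem smul_WQ (a : QC ℂ) {v : ℂ} (hv : v ∈ WQ U) : (a : ℂ) * v ∈ WQ U := by
  have := (WQ U).smul_mem a hv
  rwa [Algebra.smul_def] at this

/-- **both members of a pair are in the space** -/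
theorem pair_mem {x y : ℂ} (hx : x ∈ Lt) (hy : y ∈ Lt)
    (hxy : ∀ s t : QC ℂ, (s : ℂ) * x + t * y = 0 → s = 0 ∧ t = 0) {u v : ℂ} (hu : u ∈ U) (hv : v ∈ U)
    (huv : u ≠ 0 ∨ v ≠ 0) (h : u * x + v * y = 0) : x ∈ WQ U ∧ y ∈ WQ U := by
  set a := co U ⟨u, hu⟩ with ha
  set b := co U ⟨v, hv⟩ with hb
  have hua : ∑ i, (a i : ℂ) * tau U i = u := co_sum U ⟨u, hu⟩
  have hvb : ∑ i, (b i : ℂ) * tau U i = v := co_sum U ⟨v, hv⟩
  set w : Fin (finrank (QC ℂ) U) → ℂ := fun i => (a i : ℂ) * x + b i * y with hw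
  have hwY : w ∈ Y U := by
    refine ⟨fun i => Lt.add_mem (smul_Lt _ hx) (smul_Lt _ hy), ?_⟩
    have : ∑ i, tau U i * w i = (∑ i, (a i : ℂ) * tau U i) * x + (∑ i, (b i : ℂ) * tau U i) * y := by
      rw [Finset.sum_mul, Finset.sum_mul, ← Finset.sum_add_distrib]
      refine Finset.sum_congr rfl fun i _ => ?_
      rw [hw]
      ring
    rw [this, hua, hvb, h]
  have hwi : ∀ i, w i ∈ WQ U := fun i => coord_mem U ⟨w, hwY⟩ i
  obtain ⟨i, k, hik⟩ : ∃ i k, a i * b k ≠ a k * b i := by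
    by_contra hcon
    push Not at hcon
    by_cases ha0 : ∃ i, a i ≠ 0
    · obtain ⟨i, hi⟩ := ha0
      have hi' : (a i : ℂ) ≠ 0 := fun h0 => hi (Subtype.ext h0)
      have h1 : (a i : ℂ) * v = b i * u := by
        rw [← hua, ← hvb, Finset.mul_sum, Finset.mul_sum]
        refine Finset.sum_congr rfl fun k _ => ?_
        have h2 : (a i : ℂ) * b k = a k * b i := by exact_mod_cast hcon i k
        linear_combination tau U k * h2
      have hu0 : u ≠ 0 := by
        intro h0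
        rw [h0, mul_zero] at h1
        rcases huv with h3 | h3
        · exact h3 h0
        · exact h3 ((mul_eq_zero.1 h1).resolve_left hi')
      have h2 : u * ((a i : ℂ) * x + b i * y) = 0 := by
        linear_combination (a i : ℂ) * h - y * h1
      have h3 := (mul_eq_zero.1 h2).resolve_left hu0
      exact hi (hxy _ _ h3).1
    · push Not at ha0
      have hu0 : u = 0 := by
        rw [← hua]
        refine Finset.sum_eq_zero fun i _ => ?_
        rw [ha0 i]
        simp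
      have hv0 : v ≠ 0 := by
        rcases huv with h3 | h3
        · exact absurd hu0 h3
        · exact h3
      rw [hu0, zero_mul, zero_add] at h
      have hy0 := (mul_eq_zero.1 h).resolve_left hv0
      have := hxy 0 1 (by rw [hy0]; simp)
      exact one_ne_zero this.2
  set D : QC ℂ := a i * b k - a k * b i with hD
  have hD0 : D ≠ 0 := sub_ne_zero.2 hik
  have hD0' : (D : ℂ) ≠ 0 := fun h0 => hD0 (Subtype.ext h0)
  have hDe : (D : ℂ) = (a i : ℂ) * b k - a k * b i := by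
    rw [hD]
    push_cast
    rfl
  have hinv : ((D⁻¹ : QC ℂ) : ℂ) = (D : ℂ)⁻¹ := by push_cast; rfl
  have hcomb : ∀ c e : QC ℂ, ((D⁻¹ : QC ℂ) : ℂ) * ((c : ℂ) * w i + e * w k) ∈ WQ U := fun c e =>
    smul_WQ U _ ((WQ U).add_mem (smul_WQ U _ (hwi i)) (smul_WQ U _ (hwi k)))
  constructor
  · have h1 := hcomb (b k) (-(b i))
    have h2 : ((D⁻¹ : QC ℂ) : ℂ) * ((b k : ℂ) * w i + ((-(b i) : QC ℂ) : ℂ) * w k) = x := by
      rw [hinv, inv_mul_eq_iff_eq_mul₀ hD0', hDe, hw]
      push_cast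
      ring
    rwa [h2] at h1
  · have h1 := hcomb (-(a k)) (a i)
    have h2 : ((D⁻¹ : QC ℂ) : ℂ) * (((-(a k) : QC ℂ) : ℂ) * w i + (a i : ℂ) * w k) = y := by
      rw [hinv, inv_mul_eq_iff_eq_mul₀ hD0', hDe, hw]
      push_cast
      ring
    rwa [h2] at h1

end gen

end Pool.Agent.J4.H56.RT
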