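import Pool.Agent.J4.H56.RT.Base

/-!
# One column: exponents in a space of finite dimension; descent to rational coefficients
-/

set_option autoImplicit false

namespace Pool.Agent.J4.H56.RT

open Module
open Pool.Agent.Y787 (QC hyperplane')
open Pool.Agent.H301R2.SSE (Lt Lt_log)

/-- the embedding of the reals -/
noncomputable def φ : ℝ →ₗ[ℚ] ℂ := (Complex.ofRealAm.toLinearMap).restrictScalars ℚ

theorem φ_inj : Function.Injective φ := fun a b h => by
  change (a : ℂ) = (b : ℂ) at h
  exact_mod_cast h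

theorem li_QC {N : ℕ} (x : Fin N → ℝ) (hx : ∀ j, IsAlgebraic ℚ (Real.exp (x j)))
    (h : LinearIndependent ℚ x) : LinearIndependent (QC ℂ) (fun j => (x j : ℂ)) := by
  refine Pool.Agent.N770.li_logs _ (fun j => ?_) (h.map' φ (LinearMap.ker_eq_bot.2 φ_inj))
  rw [← Complex.ofReal_exp]
  exact (hx j).algebraMap

/-- Baker's theorem for two logarithms -/
theorem baker_two {x y : ℝ} (hx : IsAlgebraic ℚ (Real.exp x)) (hy : IsAlgebraic ℚ (Real.exp y))
    (h : LinearIndependent ℚ ![x, y]) (s t : QC ℂ)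
    (h0 : (s : ℂ) * x + t * y = 0) : s = 0 ∧ t = 0 := by
  have h1 := li_QC ![x, y] (by intro j; fin_cases j; exacts [hx, hy]) h
  rw [Fintype.linearIndependent_iff] at h1
  have h2 := h1 ![s, t] (by
    rw [Fin.sum_univ_two, Algebra.smul_def, Algebra.smul_def]
    exact h0)
  exact ⟨h2 0, h2 1⟩

theorem Lt_real {x : ℝ} (hx : IsAlgebraic ℚ (Real.exp x)) : (x : ℂ) ∈ Lt := by
  apply Lt_log
  change IsAlgebraic ℚ (Complex.exp (x : ℂ))
  rw [← Complex.ofReal_exp]
  exact hx.algebraMap

/-- an irrational exponent in the situation considered is transcendental -/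
theorem exponent_ne {x t : ℝ} (hx0 : x ≠ 0) (hx : IsAlgebraic ℚ (Real.exp x))
    (htx : IsAlgebraic ℚ (Real.exp (t * x))) (ht : Irrational t) (s : QC ℂ) : (s : ℂ) ≠ t := by
  intro hs
  have hli : LinearIndependent ℚ ![x, t * x] := by
    rw [LinearIndependent.pair_iff]
    intro a b hab
    rw [Rat.smul_def, Rat.smul_def] at hab
    have h1 : (a : ℝ) + b * t = 0 := by
      apply mul_right_cancel₀ hx0
      rw [zero_mul]
      linear_combination hab
    by_cases hb : b = 0
    · subst hb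
      refine ⟨?_, rfl⟩
      simpa using h1
    · exfalso
      apply ht
      refine ⟨-a / b, ?_⟩
      have hb' : (b : ℝ) ≠ 0 := by exact_mod_cast hb
      push_cast
      rw [div_eq_iff hb']
      linear_combination -h1
  have h2 := baker_two hx htx hli s (-1) (by
    rw [hs]
    push_cast
    ring)
  exact one_ne_zero (neg_eq_zero.1 h2.2)

/-- **the number of independent numbers with an irrational exponent in the space** -/
theorem col_bound (T : Submodule (QC ℂ) ℂ) [FiniteDimensional (QC ℂ) T] (h1T : (1 : ℂ) ∈ T) {N : ℕ}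
    (x t : Fin N → ℝ) (hx : ∀ j, IsAlgebraic ℚ (Real.exp (x j))) (hli : LinearIndependent ℚ x)
    (htT : ∀ j, (t j : ℂ) ∈ T) (ht : ∀ j, Irrational (t j))
    (htx : ∀ j, IsAlgebraic ℚ (Real.exp (t j * x j))) :
    N ≤ finrank (QC ℂ) T * (finrank (QC ℂ) T - 1) := by
  classical
  have hxQ := li_QC x hx hli
  -- a functional
  have hf : ∃ f : Dual (QC ℂ) T, f ∈ (Submodule.span (QC ℂ) {(⟨1, h1T⟩ : T)}).dualAnnihilator ∧
      ∀ j, f ⟨t j, htT j⟩ ≠ 0 := by
    obtain ⟨f, h1, h2⟩ := Module.Dual.exists_forall_mem_ne_zero_of_forall_exists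
      ((Submodule.span (QC ℂ) {(⟨1, h1T⟩ : T)}).dualAnnihilator)
      (fun j : Fin N => Dual.eval (QC ℂ) T ⟨t j, htT j⟩) (by
      intro j
      have hj : (⟨t j, htT j⟩ : T) ∉ Submodule.span (QC ℂ) {(⟨1, h1T⟩ : T)} := by
        intro hmem
        rw [Submodule.mem_span_singleton] at hmem
        obtain ⟨a, ha⟩ := hmem
        have h3 := congrArg (fun z : T => (z : ℂ)) ha
        simp only [Submodule.coe_smul] at h3
        rw [Algebra.smul_def, mul_one] at h3
        exact exponent_ne (hli.ne_zero j) (hx j) (htx j) (ht j) a h3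
      obtain ⟨f, hf1, hf2⟩ := Submodule.exists_dual_map_eq_bot_of_notMem hj inferInstance
      refine ⟨f, ?_, hf1⟩
      rw [Submodule.mem_dualAnnihilator]
      intro w hw
      have : f w ∈ Submodule.map f (Submodule.span (QC ℂ) {(⟨1, h1T⟩ : T)}) := ⟨w, hw, rfl⟩
      rw [hf2] at this
      exact (Submodule.mem_bot _).1 this)
    exact ⟨f, h1, h2⟩
  obtain ⟨f, hf1, hf⟩ := hf
  have hf0 : f ⟨1, h1T⟩ = 0 :=
    (Submodule.mem_dualAnnihilator f).1 hf1 _ (Submodule.mem_span_singleton_self _)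
  set e := co T ⟨1, h1T⟩ with he
  set c : Fin N → Fin (finrank (QC ℂ) T) → QC ℂ := fun j => co T ⟨t j, htT j⟩ with hc
  have hes : ∑ i, (e i : ℂ) * tau T i = 1 := co_sum T ⟨1, h1T⟩
  have hcs : ∀ j, ∑ i, (c j i : ℂ) * tau T i = t j := fun j => co_sum T ⟨t j, htT j⟩
  set w : Fin N → Fin (finrank (QC ℂ) T) → ℂ :=
    fun j i => (c j i : ℂ) * x j + (-(e i) : QC ℂ) * ((t j * x j : ℝ) : ℂ) with hw
  have hfw : ∀ z : T, f z = ∑ i, co T z i * f (Module.finBasis (QC ℂ) T i) := by
    intro z
    conv_lhs => rw [← (Module.finBasis (QC ℂ) T).sum_repr z]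
    rw [map_sum]
    refine Finset.sum_congr rfl fun i _ => ?_
    rw [map_smul, smul_eq_mul]
    rfl
  have key := hyperplane' (Lt := Lt) (κ := Fin N) (finrank (QC ℂ) T) (tau T) (fun i j => w j i)
    (tau_li T) (fun i j => Lt.add_mem (smul_Lt _ (Lt_real (hx j))) (smul_Lt _ (Lt_real (htx j))))
    (fun j => by
      have : ∑ i, tau T i * w j i = (∑ i, (c j i : ℂ) * tau T i) * x j -
          (∑ i, (e i : ℂ) * tau T i) * ((t j * x j : ℝ) : ℂ) := by
        rw [Finset.sum_mul, Finset.sum_mul, ← Finset.sum_sub_distrib]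
        refine Finset.sum_congr rfl fun i _ => ?_
        rw [hw]
        push_cast
        ring
      rw [this, hes, hcs]
      push_cast
      ring) (by
    rw [Fintype.linearIndependent_iff]
    intro g hg j0
    rw [Fintype.linearIndependent_iff] at hxQ
    have h1 := hxQ (fun j => g j * f ⟨t j, htT j⟩) (by
      have h2 : ∀ i, ∑ j, (g j : ℂ) * w j i = 0 := by
        intro i
        have := congrFun hg i
        rw [Finset.sum_apply] at this
        rw [← Pi.zero_apply (M := fun _ : Fin (finrank (QC ℂ) T) => ℂ) i, ← this]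
        refine Finset.sum_congr rfl fun j _ => ?_
        rw [Pi.smul_apply, Algebra.smul_def]
        rfl
      have h3 : ∑ i, ((f (Module.finBasis (QC ℂ) T i) : QC ℂ) : ℂ) * ∑ j, (g j : ℂ) * w j i = 0 := by
        refine Finset.sum_eq_zero fun i _ => ?_
        rw [h2 i, mul_zero]
      have h4 : ∑ i, ((f (Module.finBasis (QC ℂ) T i) : QC ℂ) : ℂ) * ∑ j, (g j : ℂ) * w j i =
          ∑ j, (g j : ℂ) * (∑ i, ((f (Module.finBasis (QC ℂ) T i) : QC ℂ) : ℂ) * w j i) := by
        simp only [Finset.mul_sum]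
        rw [Finset.sum_comm]
        refine Finset.sum_congr rfl fun j _ => Finset.sum_congr rfl fun i _ => ?_
        ring
      rw [h4] at h3
      rw [← h3]
      refine Finset.sum_congr rfl fun j _ => ?_
      have h5 : ∑ i, ((f (Module.finBasis (QC ℂ) T i) : QC ℂ) : ℂ) * w j i =
          ((f ⟨t j, htT j⟩ : QC ℂ) : ℂ) * x j - ((f ⟨1, h1T⟩ : QC ℂ) : ℂ) * ((t j * x j : ℝ) : ℂ) := by
        rw [hfw ⟨t j, htT j⟩, hfw ⟨1, h1T⟩]
        push_cast
        rw [Finset.sum_mul, Finset.sum_mul, ← Finset.sum_sub_distrib]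
        refine Finset.sum_congr rfl fun i _ => ?_
        rw [hw]
        push_cast
        rw [hc, he]
        ring
      rw [h5, hf0, Algebra.smul_def]
      change ((g j * f ⟨t j, htT j⟩ : QC ℂ) : ℂ) * (x j : ℂ) = _
      push_cast
      ring) j0
    exact (mul_eq_zero.1 h1).resolve_right (hf j0))
  rwa [Fintype.card_fin] at key

end Pool.Agent.J4.H56.RT
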