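import Pool.Agent.J4.H56.RT.Col

/-!
# Real logarithms in a complex space; one column, as a space
-/

set_option autoImplicit false

namespace Pool.Agent.J4.H56.RT

open Module
open Pool.Agent.Y787 (QC)
open Pool.Agent.H301R2.SSE (Lt Lt_log)

/-- the space of the real logarithms in a complex space -/
noncomputable def logsIn (W : Submodule (QC ℂ) ℂ) : Submodule ℚ ℝ where
  carrier := {z | IsAlgebraic ℚ (Real.exp z) ∧ (z : ℂ) ∈ W}
  add_mem' := by
    rintro x y ⟨h1, h2⟩ ⟨h3, h4⟩
    refine ⟨by rw [Real.exp_add]; exact h1.mul h3, ?_⟩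
    push_cast
    exact W.add_mem h2 h4
  zero_mem' := ⟨by rw [Real.exp_zero]; exact isAlgebraic_one, by
    push_cast
    exact W.zero_mem⟩
  smul_mem' := by
    rintro c x ⟨h1, h2⟩
    refine ⟨?_, ?_⟩
    · have h3 : IsAlgebraic ℚ (Real.exp (c • x) ^ c.den) := by
        rw [← Real.exp_nat_mul, Rat.smul_def]
        have h4 : (c.den : ℝ) * ((c : ℝ) * x) = (c.num : ℝ) * x := by
          have h5 : (c.den : ℝ) * (c : ℝ) = c.num := by
            exact_mod_cast Rat.den_mul_eq_num c
          rw [← mul_assoc, h5]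
        rw [h4, mul_comm, Real.exp_mul, Real.rpow_intCast]
        exact Pool.Agent.W245.PB.isAlgebraic_zpow h1 _
      exact h3.of_pow c.den_pos
    · have h3 := W.smul_mem ((c : ℚ) : QC ℂ) h2
      rw [Algebra.smul_def, map_ratCast] at h3
      rw [Rat.smul_def]
      push_cast
      exact h3

theorem logsIn_finrank (W : Submodule (QC ℂ) ℂ) [FiniteDimensional (QC ℂ) W] :
    FiniteDimensional ℚ (logsIn W) ∧ finrank ℚ (logsIn W) ≤ finrank (QC ℂ) W := by
  have h1 : Module.rank ℚ (logsIn W) ≤ (finrank (QC ℂ) W : ℕ) := by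
    refine rank_le fun s hs => ?_
    -- independent logarithms
    have h2 : LinearIndependent ℚ (fun i : s => (((i : logsIn W) : ℝ) : ℂ)) := by
      have h3 := hs.map' (logsIn W).subtype (Submodule.ker_subtype _)
      exact h3.map' φ (LinearMap.ker_eq_bot.2 φ_inj)
    let e := Fintype.equivFin s
    have h4 : LinearIndependent ℚ (fun i : Fin (Fintype.card s) =>
        (((e.symm i : logsIn W) : ℝ) : ℂ)) := h2.comp _ e.symm.injective
    have h5 := Pool.Agent.N770.li_logs _ (fun i => by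
      rw [← Complex.ofReal_exp]
      exact (e.symm i : logsIn W).2.1.algebraMap) h4
    have h6 : LinearIndependent (QC ℂ) (fun i : Fin (Fintype.card s) =>
        (⟨(((e.symm i : logsIn W) : ℝ) : ℂ), (e.symm i : logsIn W).2.2⟩ : W)) := by
      refine LinearIndependent.of_comp W.subtype ?_
      exact h5
    have h7 := h6.fintype_card_le_finrank
    rw [Fintype.card_fin, Fintype.card_coe] at h7
    exact h7
  have h2 : Module.Finite ℚ (logsIn W) := by
    rw [Module.finite_def, ← Module.finite_def, ← Module.rank_lt_aleph0_iff]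
    exact h1.trans_lt (Cardinal.natCast_lt_aleph0)
  exact ⟨h2, Module.finrank_le_of_rank_le h1⟩


/-- the numbers with an irrational exponent in `T` span a small space -/
theorem col_space (T : Submodule (QC ℂ) ℂ) [FiniteDimensional (QC ℂ) T] (h1T : (1 : ℂ) ∈ T) :
    ∃ W : Submodule ℚ ℝ, FiniteDimensional ℚ W ∧ (∀ w ∈ W, IsAlgebraic ℚ (Real.exp w)) ∧
      finrank ℚ W ≤ finrank (QC ℂ) T * (finrank (QC ℂ) T - 1) ∧
      ∀ x t : ℝ, IsAlgebraic ℚ (Real.exp x) → (t : ℂ) ∈ T → Irrational t →
        IsAlgebraic ℚ (Real.exp (t * x)) → x ∈ W := by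
  classical
  set B : Set ℝ := {x | IsAlgebraic ℚ (Real.exp x) ∧ ∃ t : ℝ, (t : ℂ) ∈ T ∧ Irrational t ∧
    IsAlgebraic ℚ (Real.exp (t * x))} with hB
  obtain ⟨b, hbB, hspan, hli⟩ := exists_linearIndependent ℚ B
  have hcard : ∀ s : Finset ℝ, (s : Set ℝ) ⊆ b → s.card ≤ finrank (QC ℂ) T * (finrank (QC ℂ) T - 1) := by
    intro s hs
    set e := s.equivFin with he
    have hmem : ∀ j : Fin s.card, ((e.symm j : s) : ℝ) ∈ b := fun j => hs (e.symm j).2
    have hex : ∀ j : Fin s.card, ∃ t : ℝ, (t : ℂ) ∈ T ∧ Irrational t ∧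
        IsAlgebraic ℚ (Real.exp (t * ((e.symm j : s) : ℝ))) := fun j => (hbB (hmem j)).2
    choose t ht1 ht2 ht3 using hex
    refine col_bound T h1T (fun j => ((e.symm j : s) : ℝ)) t (fun j => (hbB (hmem j)).1) ?_ ht1 ht2 ht3
    have h1 := hli.comp (fun j : Fin s.card => (⟨((e.symm j : s) : ℝ), hmem j⟩ : b)) (by
      intro i j hij
      apply e.symm.injective
      apply Subtype.ext
      exact congrArg (fun z : b => (z : ℝ)) hij)
    exact h1
  have hfin : b.Finite := by
    by_contra hinf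
    obtain ⟨s, hs, hc⟩ := Set.Infinite.exists_subset_card_eq hinf
      (finrank (QC ℂ) T * (finrank (QC ℂ) T - 1) + 1)
    have := hcard s hs
    omega
  refine ⟨Submodule.span ℚ b, FiniteDimensional.span_of_finite ℚ hfin, ?_, ?_, ?_⟩
  · have h1 : Submodule.span ℚ b ≤ logsIn ⊤ := by
      rw [Submodule.span_le]
      intro x hx
      exact ⟨(hbB hx).1, Submodule.mem_top⟩
    exact fun w hw => (h1 hw).1
  · have h1 := finrank_span_finset_le_card (R := ℚ) hfin.toFinset
    rw [Set.Finite.coe_toFinset] at h1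
    exact h1.trans (hcard _ (by rw [Set.Finite.coe_toFinset]))
  · intro x t hx htT ht htx
    rw [hspan]
    exact Submodule.subset_span ⟨hx, t, htT, ht, htx⟩

end Pool.Agent.J4.H56.RT
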